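import Mathlib
import Pool.Agent.K1H6.ColN4

set_option autoImplicit false

open Filter Topology Finset

namespace Pool.Agent.Results.MP_005f52_nt.CycleLinearForms

/-- The Syracuse map. -/
def Syr (N : ℤ) : ℤ := (3 * N + 1) / 2 ^ padicValInt 2 (3 * N + 1)

/-- The binary entropy of `log_3 2`, in bits: `0.94995...` -/
noncomputable def H : ℝ := Real.binEntropy (Real.log 2 / Real.log 3) / Real.log 2

/-- The sum `x_1 + ... + x_k` of the first `k` exponents of `N`. -/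
def exps (k : ℕ) (N : ℤ) : ℕ := ∑ i ∈ Finset.range k, padicValInt 2 (3 * Syr^[i] N + 1)

/-- The negative odd integer `N` lies on a periodic orbit. -/
def Cyclic (N : ℤ) : Prop := N < 0 ∧ N % 2 = 1 ∧ ∃ k : ℕ, 1 ≤ k ∧ Syr^[k] N = N

/-- The length of the periodic orbit of `N`: the least `k ≥ 1` with `Syr^k N = N`. -/
noncomputable def period (N : ℤ) : ℕ := sInf {k : ℕ | 1 ≤ k ∧ Syr^[k] N = N}

/-- `p log 3 - (x_1 + ... + x_p) log 2`, where `p` is the length of the periodic orbit of `N`. -/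
noncomputable def form (N : ℤ) : ℝ := period N * Real.log 3 - exps (period N) N * Real.log 2

theorem Syr_eq : Syr = Pool.Agent.K1H6.ColN.Syr := rfl

theorem exps_eq (k : ℕ) (N : ℤ) : exps k N = Pool.Agent.K1H6.ColN.exps k N := rfl

theorem H_eq : H = Pool.Agent.K1H6.ColN.Ent := rfl

theorem per_iff (N : ℤ) : (∃ k : ℕ, 1 ≤ k ∧ Syr^[k] N = N) ↔ N ∈ Function.periodicPts Syr :=
  ⟨fun ⟨_, hk, h⟩ => Function.mk_mem_periodicPts hk h, fun ⟨k, hk, h⟩ => ⟨k, hk, h⟩⟩

theorem period_eq {N : ℤ} (h : Cyclic N) : period N = Function.minimalPeriod Syr N := by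
  have hp := (per_iff N).1 h.2.2
  have hmem : Function.minimalPeriod Syr N ∈ {k : ℕ | 1 ≤ k ∧ Syr^[k] N = N} :=
    ⟨Function.minimalPeriod_pos_of_mem_periodicPts hp, Function.isPeriodicPt_minimalPeriod Syr N⟩
  apply le_antisymm (Nat.sInf_le hmem)
  have h2 := Nat.sInf_mem ⟨_, hmem⟩
  exact Function.IsPeriodicPt.minimalPeriod_le h2.1 h2.2

/-- **The linear forms of all the periodic orbits together, and the products along divergent orbits.**
There are `c > 1 - H(log_3 2)` (`= 0.05004...`) and `C` such that for every integer `y ≥ 1`: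
1. the sum of `1/|N|` over the `N ≤ -y` which lie on periodic orbits of negative odd integers is at most
   `C / y ^ c` (all periodic orbits together);
2. for any finite set of different periodic orbits all of whose terms are at most `-y` (given by one
   element of each) the numbers `p log 3 - (x_1 + ... + x_p) log 2` are positive and their sum is at
   most `C / y ^ c`;
3. the sum of `1/|M|` over the different terms `M ≤ -y` of the orbit of a negative odd integer is at most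
   `C / y ^ c`;
4. if `N, Syr N, ..., Syr^(k-1) N` are different and at most `-y`, then
   `2 ^ (x_1 + ... + x_k) |Syr^k N| ≤ 3 ^ k |N| ≤ exp (C / y ^ c) 2 ^ (x_1 + ... + x_k) |Syr^k N|`. -/
theorem result : ∃ c C : ℝ, 1 - H < c ∧ 0 < C ∧ ∀ y : ℕ, 1 ≤ y →
    (∀ F : Finset ℤ, (∀ N ∈ F, Cyclic N ∧ N ≤ -(y : ℤ)) → ∑ N ∈ F, (1 : ℝ) / |(N : ℝ)| ≤ C / (y : ℝ) ^ c) ∧
    (∀ M : Finset ℤ, (∀ N ∈ M, Cyclic N ∧ ∀ i : ℕ, Syr^[i] N ≤ -(y : ℤ)) →
      (∀ N ∈ M, ∀ N' ∈ M, ∀ i : ℕ, Syr^[i] N = N' → N = N') →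
      (∀ N ∈ M, 0 < form N) ∧ ∑ N ∈ M, form N ≤ C / (y : ℝ) ^ c) ∧
    (∀ N : ℤ, N < 0 → N % 2 = 1 → ∀ F : Finset ℤ, (∀ M ∈ F, (∃ k : ℕ, Syr^[k] N = M) ∧ M ≤ -(y : ℤ)) →
      ∑ M ∈ F, (1 : ℝ) / |(M : ℝ)| ≤ C / (y : ℝ) ^ c) ∧
    (∀ N : ℤ, N < 0 → N % 2 = 1 → ∀ k : ℕ, (∀ i < k, Syr^[i] N ≤ -(y : ℤ)) →
      Set.InjOn (fun i => Syr^[i] N) (Set.Iio k) →
      (2 : ℝ) ^ exps k N * |((Syr^[k] N : ℤ) : ℝ)| ≤ 3 ^ k * |(N : ℝ)| ∧
      (3 : ℝ) ^ k * |(N : ℝ)| ≤ Real.exp (C / (y : ℝ) ^ c) * (2 ^ exps k N * |((Syr^[k] N : ℤ) : ℝ)|)) := by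
  classical
  obtain ⟨D, hD0, hD⟩ := Pool.Agent.K1H6.ColN.recips_syr
  refine ⟨1 - Pool.Agent.K1H6.ColN.kap, D, ?_, hD0, fun y hy => ?_⟩
  · have := Pool.Agent.K1H6.ColN.kap_lt
    rw [H_eq]
    linarith
  have hy0 : (0 : ℝ) < y := by exact_mod_cast hy
  obtain ⟨h1, h2⟩ := hD y hy
  set B := D / (y : ℝ) ^ (1 - Pool.Agent.K1H6.ColN.kap) with hB
  have hB0 : 0 < B := by positivity
  refine ⟨fun F hF => h2 F (fun N hN => ⟨(hF N hN).1.1, (hF N hN).1.2.1,
    (per_iff N).1 (hF N hN).1.2.2, (hF N hN).2⟩), ?_, h1, ?_⟩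
  · intro M hM hdis
    have hform : ∀ N ∈ M, form N =
        (((Function.minimalPeriod Syr N : ℕ) : ℝ) * Real.log 3 -
        (exps (Function.minimalPeriod Syr N) N : ℝ) * Real.log 2) := by
      intro N hN
      unfold form
      rw [period_eq (hM N hN).1]
    constructor
    · intro N hN
      rw [hform N hN]
      have hper := (per_iff N).1 (hM N hN).1.2.2
      exact (Pool.Agent.K1H6.ColN.lin_form (hM N hN).1.1 (hM N hN).1.2.1
        (Function.minimalPeriod_pos_of_mem_periodicPts hper) (Function.isPeriodicPt_minimalPeriod Syr N)).1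
    · rw [Finset.sum_congr rfl hform]
      refine (Pool.Agent.K1H6.ColN.forms hy h2 M (fun N hN => ⟨(hM N hN).1.1, (hM N hN).1.2.1,
        (per_iff N).1 (hM N hN).1.2.2, (hM N hN).2⟩) hdis).trans ?_
      linarith
  · intro N hN hodd k hk hinj
    obtain ⟨g1, g2⟩ := Pool.Agent.K1H6.ColN.mult hN hodd k
    refine ⟨g1, g2.trans ?_⟩
    have g3 : ∑ i ∈ range k, (1 : ℝ) / (2 * |((Syr^[i] N : ℤ) : ℝ)|) ≤ B := by
      have g4 : ∑ i ∈ range k, (1 : ℝ) / |((Syr^[i] N : ℤ) : ℝ)| ≤ B := by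
        have g5 : ∑ m ∈ (range k).image (fun i => Syr^[i] N), (1 : ℝ) / |(m : ℝ)| =
            ∑ i ∈ range k, (1 : ℝ) / |((Syr^[i] N : ℤ) : ℝ)| := by
          rw [Finset.sum_image]
          intro i hi j hj hij
          exact hinj (by simpa using hi) (by simpa using hj) hij
        rw [← g5]
        apply h1 N hN hodd
        intro m hm
        rw [Finset.mem_image] at hm
        obtain ⟨i, hi, rfl⟩ := hm
        exact ⟨⟨i, rfl⟩, hk i (by simpa using hi)⟩
      refine le_trans (Finset.sum_le_sum ?_) g4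
      intro i hi
      have g7 : (0 : ℝ) < |((Syr^[i] N : ℤ) : ℝ)| := by
        rw [abs_pos]
        have := (Pool.Agent.K1H6.ColN.Syr_neg hN hodd i).1
        have h8 : Syr^[i] N ≠ 0 := this.ne
        exact_mod_cast h8
      apply one_div_le_one_div_of_le g7
      linarith
    calc (2 : ℝ) ^ exps k N * |((Syr^[k] N : ℤ) : ℝ)| *
          Real.exp (∑ i ∈ range k, (1 : ℝ) / (2 * |((Syr^[i] N : ℤ) : ℝ)|))
        ≤ 2 ^ exps k N * |((Syr^[k] N : ℤ) : ℝ)| * Real.exp B := by gcongr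
      _ = _ := by ring

end Pool.Agent.Results.MP_005f52_nt.CycleLinearForms
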