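import Mathlib
import Pool.Agent.K1H87.PR.Unif

/-!
# Negatives of primes in the basins of the Syracuse map on the negative odd integers

Every nonempty set `A` of negative odd integers that is invariant under the Syracuse map and its inverse
contains `-p` for a positive proportion of the primes `p`, and the odd part of `-(a p + b)` for a
positive proportion of the primes `p`. In particular a positive proportion of the negatives of the
primes is attracted by each of the three known cycles, and every negative odd integer is attracted by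
one of them as soon as, for arbitrarily large `N`, all but `o (N / log N)` of the `-p`, `p ≤ N`, are.
-/

set_option autoImplicit false

namespace Pool.Agent.Results.MP_005f52_nt.NegativesOfPrimes

open Filter Topology

/-- The Syracuse map. -/
def Syr (n : ℤ) : ℤ := (3 * n + 1) / 2 ^ padicValInt 2 (3 * n + 1)

/-- The odd part. -/
def oddPart (n : ℤ) : ℤ := n / 2 ^ padicValInt 2 n

/-- The set `A` of negative odd integers is invariant under the Syracuse map and its inverse. -/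
def Invariant (A : Set ℤ) : Prop := ∀ n : ℤ, n < 0 → Odd n → (n ∈ A ↔ Syr n ∈ A)

/-- The number of the primes `p` with `N / 4 ≤ a p + b ≤ N` for which the odd part of `-(a p + b)`
belongs to `A`. -/
noncomputable def Count (A : Set ℤ) (a : ℕ) (b : ℤ) (N : ℕ) : ℕ :=
  {p : ℕ | p.Prime ∧ (N : ℤ) ≤ 4 * (a * p + b) ∧ (a * p + b : ℤ) ≤ N ∧ oddPart (-(a * p + b)) ∈ A}.ncard

/-- The orbit of `n` contains `z`. -/
def Reaches (n z : ℤ) : Prop := ∃ k : ℕ, Syr^[k] n = z

/-- The orbit of `n` enters one of the three known cycles. -/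
def EntersKnown (n : ℤ) : Prop := Reaches n (-1) ∨ Reaches n (-5) ∨ Reaches n (-17)

/-! ### proofs -/

open Pool.Agent.H499R2.ND

theorem oddPart_eq {n m : ℤ} {v : ℕ} (h : n = 2 ^ v * m) (hm : m % 2 = 1) : oddPart n = m := by
  have hM0 : m ≠ 0 := by rintro rfl; norm_num at hm
  have h1 : padicValInt 2 n = v := by
    rw [h, padicValInt.mul (by positivity) hM0]
    have h2 : padicValInt 2 m = 0 := padicValInt.eq_zero_of_not_dvd (by
      intro h3
      have : (2 : ℤ) ∣ m := by exact_mod_cast h3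
      omega)
    have h3 : padicValInt 2 ((2 : ℤ) ^ v) = v := by
      have e : ((2 : ℤ) ^ v) = ((2 ^ v : ℕ) : ℤ) := by push_cast; ring
      rw [e, padicValInt.of_nat, padicValNat.prime_pow]
    rw [h2, h3, add_zero]
  unfold oddPart
  rw [h1, h, Int.mul_ediv_cancel_left _ (by positivity)]

theorem exists_odd {n : ℤ} (hn : n ≠ 0) : ∃ (v : ℕ) (m : ℤ), n = 2 ^ v * m ∧ m % 2 = 1 := by
  obtain ⟨v, m, hm, h⟩ := Nat.exists_eq_two_pow_mul_odd (n := n.natAbs) (by omega)
  have hm2 : m % 2 = 1 := Nat.odd_iff.1 hm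
  rcases le_total 0 n with h0 | h0
  · refine ⟨v, m, ?_, by omega⟩
    have h1 : n = ((n.natAbs : ℕ) : ℤ) := by omega
    rw [h1, h]; push_cast; ring
  · refine ⟨v, -m, ?_, by omega⟩
    have h1 : n = -((n.natAbs : ℕ) : ℤ) := by omega
    rw [h1, h]; push_cast; ring

theorem oddPart_odd {n : ℤ} (hn : n % 2 = 1) : oddPart n = n := oddPart_eq (v := 0) (by ring) hn

theorem oddPart_half {n : ℤ} (h0 : n ≠ 0) (hn : n % 2 = 0) : oddPart (n / 2) = oddPart n := by
  obtain ⟨v, m, h1, h2⟩ := exists_odd (n := n / 2) (by omega)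
  rw [oddPart_eq h1 h2, oddPart_eq (n := n) (v := v + 1) (m := m) (by
    have h3 : n = 2 * (n / 2) := by omega
    rw [pow_succ, mul_comm ((2 : ℤ) ^ v) 2, mul_assoc, ← h1]; exact h3) h2]

theorem syr_oddPart (n : ℤ) : Syr n = oddPart (3 * n + 1) := rfl

/-- the negative integers whose odd part is in `A` -/
def ext (A : Set ℤ) : Set ℤ := {x | x < 0 ∧ oddPart x ∈ A}

theorem ext_inv {A : Set ℤ} (hA : Invariant A) : ∀ x, x ∈ ext A ↔ Pool.Agent.H499R2.CO.Tz 1 x ∈ ext A := by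
  intro x
  unfold ext Pool.Agent.H499R2.CO.Tz
  simp only [Set.mem_ofPred_eq]
  by_cases hx : x < 0
  · by_cases h2 : x % 2 = 0
    · rw [if_pos h2, oddPart_half (by omega) h2]
      constructor
      · rintro ⟨_, h⟩; exact ⟨by omega, h⟩
      · rintro ⟨_, h⟩; exact ⟨hx, h⟩
    · rw [if_neg h2, oddPart_half (by omega) (by omega), oddPart_odd (n := x) (by omega), ← syr_oddPart]
      have h := hA x hx (Int.odd_iff.2 (by omega))
      rw [h]
      constructor
      · rintro ⟨_, h⟩; exact ⟨by omega, h⟩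
      · rintro ⟨_, h⟩; exact ⟨hx, h⟩
  · constructor
    · rintro ⟨h, _⟩; exact absurd h hx
    · rintro ⟨h, _⟩
      exfalso
      split_ifs at h <;> omega

theorem main (A : Set ℤ) (hA : Invariant A) (hne : ∃ n ∈ A, n < 0 ∧ Odd n) (a : ℕ) (ha : 1 ≤ a) :
    ∃ c : ℝ, 0 < c ∧ ∃ N₀ : ℕ, ∀ N : ℕ, N₀ ≤ N → ∀ b : ℤ, 8 * |b| ≤ N →
      c * (N / Real.log N) ≤ Count A a b N := by
  have haZ : (1 : ℤ) ≤ a := by exact_mod_cast ha
  obtain ⟨n, hnA, hn0, hodd⟩ := hne
  have hn2 : n % 2 = 1 := Int.odd_iff.1 hodd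
  have hmem : n ∈ ext A := ⟨hn0, by rw [oddPart_odd hn2]; exact hnA⟩
  have hS : Inv 1 (ext A) := ext_inv hA
  obtain ⟨δ, _, _, hδ⟩ := dens_side odd_one isCoprime_one_left (Or.inr rfl : (-1 : ℤ) = 1 ∨ _) hS
  have hδ0 : 0 < δ := one_pos (Or.inr rfl) hS hmem (by omega) hδ
  obtain ⟨c, hc, h⟩ := Pool.Agent.K1H87.PR.primes_lin (Or.inr rfl : (-1 : ℤ) = 1 ∨ _) haZ hδ0
  obtain ⟨N₀, hN₀⟩ := eventually_atTop.1 (h.and (eventually_ge_atTop 1))
  refine ⟨c, hc, N₀, fun N hN b hb => ?_⟩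
  obtain ⟨h1, h2⟩ := hN₀ N hN
  refine (h1 (ext A) hS δ hδ le_rfl b hb).trans (le_of_eq ?_)
  unfold Count
  congr 2
  ext p
  unfold ext
  simp only [Set.mem_ofPred_eq, neg_one_mul]
  constructor
  · rintro ⟨g1, g2, g3, g4, g5⟩
    exact ⟨g1, g2, g3, g5⟩
  · rintro ⟨g1, g2, g3, g4⟩
    refine ⟨g1, g2, g3, ?_, g4⟩
    omega

theorem syr_neg_odd {n : ℤ} (h0 : n < 0) (hn : n % 2 = 1) : Syr n < 0 ∧ Syr n % 2 = 1 := by
  obtain ⟨v, m, h1, h2⟩ := exists_odd (n := 3 * n + 1) (by omega)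
  rw [syr_oddPart, oddPart_eq h1 h2]
  refine ⟨?_, h2⟩
  have h3 : (0 : ℤ) < 2 ^ v := by positivity
  by_contra hc
  push Not at hc
  have : 0 ≤ (2 : ℤ) ^ v * m := mul_nonneg h3.le hc
  omega

/-- basins of periodic points are invariant -/
theorem basin_inv {z : ℤ} (hz : ∃ k, Syr^[k + 1] z = z) : Invariant {n | Reaches n z} := by
  intro n _ _
  simp only [Set.mem_ofPred_eq]
  constructor
  · rintro ⟨k, hk⟩
    cases k with
    | zero =>
      obtain ⟨j, hj⟩ := hz
      have : n = z := hk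
      refine ⟨j, ?_⟩
      rw [this, ← Function.iterate_succ_apply]
      exact hj
    | succ k => exact ⟨k, by rw [← Function.iterate_succ_apply]; exact hk⟩
  · rintro ⟨k, hk⟩
    exact ⟨k + 1, by rw [Function.iterate_succ_apply]; exact hk⟩

theorem s1 : Syr (-1) = -1 := oddPart_eq (v := 1) (by norm_num) (by norm_num)
theorem s5 : Syr (-5) = -7 := oddPart_eq (v := 1) (by norm_num) (by norm_num)
theorem s7 : Syr (-7) = -5 := oddPart_eq (v := 2) (by norm_num) (by norm_num)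
theorem s17 : Syr (-17) = -25 := oddPart_eq (v := 1) (by norm_num) (by norm_num)
theorem s25 : Syr (-25) = -37 := oddPart_eq (v := 1) (by norm_num) (by norm_num)
theorem s37 : Syr (-37) = -55 := oddPart_eq (v := 1) (by norm_num) (by norm_num)
theorem s55 : Syr (-55) = -41 := oddPart_eq (v := 2) (by norm_num) (by norm_num)
theorem s41 : Syr (-41) = -61 := oddPart_eq (v := 1) (by norm_num) (by norm_num)
theorem s61 : Syr (-61) = -91 := oddPart_eq (v := 1) (by norm_num) (by norm_num)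
theorem s91 : Syr (-91) = -17 := oddPart_eq (v := 4) (by norm_num) (by norm_num)

theorem per {z : ℤ} (hz : z = -1 ∨ z = -5 ∨ z = -17) : ∃ k, Syr^[k + 1] z = z := by
  rcases hz with rfl | rfl | rfl
  · exact ⟨0, by simp [s1]⟩
  · exact ⟨1, by simp [Function.iterate_succ_apply, s5, s7]⟩
  · exact ⟨6, by simp [Function.iterate_succ_apply, s17, s25, s37, s55, s41, s61, s91]⟩

theorem result :
    (∀ A : Set ℤ, Invariant A → (∃ n ∈ A, n < 0 ∧ Odd n) → ∀ a : ℕ, 1 ≤ a → ∃ c : ℝ, 0 < c ∧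
      ∃ N₀ : ℕ, ∀ N : ℕ, N₀ ≤ N → ∀ b : ℤ, 8 * |b| ≤ N → c * (N / Real.log N) ≤ Count A a b N) ∧
    (∀ z : ℤ, z = -1 ∨ z = -5 ∨ z = -17 → ∃ c : ℝ, 0 < c ∧ ∃ N₀ : ℕ, ∀ N : ℕ, N₀ ≤ N →
      c * (N / Real.log N) ≤ ({p : ℕ | p.Prime ∧ p ≤ N ∧ p ≠ 2 ∧ Reaches (-p) z}.ncard : ℝ)) ∧
    (∀ (a : ℕ) (b : ℤ), 1 ≤ a → ∀ ψ : ℕ → ℝ, Tendsto ψ atTop (𝓝 0) →
      (∃ᶠ N : ℕ in atTop, ({p : ℕ | p.Prime ∧ p ≤ N ∧ 1 ≤ a * p + b ∧
        ¬ EntersKnown (oddPart (-(a * p + b)))}.ncard : ℝ) ≤ ψ N * (N / Real.log N)) →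
      ∀ n : ℤ, n < 0 → Odd n → EntersKnown n) := by
  refine ⟨main, ?_, ?_⟩
  · intro z hz
    have hodd : z < 0 ∧ Odd z := by
      rcases hz with rfl | rfl | rfl
      · exact ⟨by norm_num, by decide⟩
      · exact ⟨by norm_num, by decide⟩
      · exact ⟨by norm_num, by decide⟩
    obtain ⟨c, hc, N₀, h⟩ := main {n | Reaches n z} (basin_inv (per hz)) ⟨z, ⟨0, rfl⟩, hodd⟩ 1 le_rfl
    refine ⟨c, hc, max N₀ 9, fun N hN => ?_⟩
    refine (h N ((le_max_left _ _).trans hN) 0 (by simp)).trans ?_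
    have hN9 : 9 ≤ N := (le_max_right _ _).trans hN
    have hfin : {p : ℕ | p.Prime ∧ p ≤ N ∧ p ≠ 2 ∧ Reaches (-p) z}.Finite :=
      (Set.finite_Iic N).subset (fun p hp => hp.2.1)
    have hsub : {p : ℕ | p.Prime ∧ (N : ℤ) ≤ 4 * ((1 : ℕ) * p + 0) ∧ (((1 : ℕ) : ℤ) * p + 0 : ℤ) ≤ N ∧
        oddPart (-((1 : ℕ) * p + 0)) ∈ {n | Reaches n z}} ⊆
        {p : ℕ | p.Prime ∧ p ≤ N ∧ p ≠ 2 ∧ Reaches (-p) z} := by
      rintro p ⟨h1, h2, h3, h4⟩
      have hp2 : p ≠ 2 := by rintro rfl; push_cast at h2; omega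
      have hp : p % 2 = 1 := by
        rcases h1.eq_two_or_odd with h | h
        · exact absurd h hp2
        · exact h
      refine ⟨h1, by push_cast at h3; omega, hp2, ?_⟩
      have e : (-(((1 : ℕ) : ℤ) * p + 0)) = -(p : ℤ) := by push_cast; ring
      rw [e, oddPart_odd (by omega)] at h4
      exact h4
    unfold Count
    exact_mod_cast Set.ncard_le_ncard hsub hfin
  · intro a b ha ψ hψ hfr
    by_contra hcon
    push Not at hcon
    obtain ⟨n, hn0, hodd, hn⟩ := hcon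
    have hinv : Invariant {n | ¬ EntersKnown n} := by
      intro m hm1 hm2
      have e1 := basin_inv (per (z := -1) (by norm_num)) m hm1 hm2
      have e2 := basin_inv (per (z := -5) (by norm_num)) m hm1 hm2
      have e3 := basin_inv (per (z := -17) (by norm_num)) m hm1 hm2
      simp only [Set.mem_ofPred_eq] at e1 e2 e3 ⊢
      unfold EntersKnown
      rw [e1, e2, e3]
    obtain ⟨c, hc, N₀, h⟩ := main {n | ¬ EntersKnown n} hinv ⟨n, hn, hn0, hodd⟩ a ha
    have ht : Tendsto (fun N : ℕ => N / 2) atTop atTop := Nat.tendsto_div_const_atTop (by norm_num)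
    have hev := ((hψ.eventually (gt_mem_nhds (show (0 : ℝ) < c / 3 by positivity))).and
      (ht.eventually (eventually_ge_atTop N₀))).and (eventually_ge_atTop (16 * b.natAbs + 16))
    obtain ⟨N, hN, ⟨hψN, hNN⟩, hNb⟩ := (hfr.and_eventually hev).exists
    obtain ⟨M, hM⟩ : ∃ M : ℕ, M = N / 2 := ⟨_, rfl⟩
    rw [← hM] at hNN
    have h1 := h M hNN b (by rw [Int.abs_eq_natAbs]; omega)
    have h2 := Pool.Agent.K1H87.PR.half_log hM (by omega)
    have hfin : {p : ℕ | p.Prime ∧ p ≤ N ∧ 1 ≤ a * p + b ∧ ¬ EntersKnown (oddPart (-(a * p + b)))}.Finite :=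
      (Set.finite_Iic N).subset (fun p hp => hp.2.1)
    have hsub : {p : ℕ | p.Prime ∧ (M : ℤ) ≤ 4 * (a * p + b) ∧ (a * p + b : ℤ) ≤ M ∧
        oddPart (-(a * p + b)) ∈ {n | ¬ EntersKnown n}} ⊆
        {p : ℕ | p.Prime ∧ p ≤ N ∧ 1 ≤ a * p + b ∧ ¬ EntersKnown (oddPart (-(a * p + b)))} := by
      rintro p ⟨h3, h4, h5, h6⟩
      have h7 : (p : ℤ) ≤ a * p := le_mul_of_one_le_left (by positivity) (by exact_mod_cast ha)
      exact ⟨h3, by omega, by omega, h6⟩
    have h3 : (Count {n | ¬ EntersKnown n} a b M : ℝ) ≤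
        ({p : ℕ | p.Prime ∧ p ≤ N ∧ 1 ≤ a * p + b ∧ ¬ EntersKnown (oddPart (-(a * p + b)))}.ncard : ℝ) := by
      unfold Count
      exact_mod_cast Set.ncard_le_ncard hsub hfin
    have hN1 : (1 : ℝ) < N := by
      have : 1 < N := by omega
      exact_mod_cast this
    have hlog : 0 < Real.log N := Real.log_pos hN1
    have hq : 0 < (N : ℝ) / Real.log N := by positivity
    have h4 : c / 3 * (N / Real.log N) ≤ c * (M / Real.log M) := by
      have := mul_le_mul_of_nonneg_left h2 hc.le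
      linarith
    have h5 : c / 3 * ((N : ℝ) / Real.log N) ≤ ψ N * (N / Real.log N) := by linarith
    have h6 := le_of_mul_le_mul_right h5 hq
    linarith

end Pool.Agent.Results.MP_005f52_nt.NegativesOfPrimes
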