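import Mathlib
import Pool.Agent.K1H87.PR.Win
import Pool.Agent.H499R2.NDCor

/-!
# The basins of the Syracuse map on the negative odd integers fill long intervals

For every `θ < 1` and `ε > 0`, every nonempty set `A` of negative odd integers that is invariant under
the Syracuse map and its inverse fills a positive proportion of the intervals of length `N ^ θ`: all but
`ε H` of the odd integers of the interval belong to `A`, and their orbits have a common term. This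
holds in particular for the basins of the three known cycles. Hence all negative odd integers enter
the known cycles as soon as this holds for a set which contains a fixed proportion of almost all
intervals of length `N ^ θ`, for one `θ < 1`.
-/

set_option autoImplicit false

namespace Pool.Agent.Results.MP_005f52_nt.SolidBasins

open Filter Topology

/-- The Syracuse map. -/
def Syr (n : ℤ) : ℤ := (3 * n + 1) / 2 ^ padicValInt 2 (3 * n + 1)

/-- The set `A` of negative odd integers is invariant under the Syracuse map and its inverse. -/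
def Invariant (A : Set ℤ) : Prop := ∀ n : ℤ, n < 0 → Odd n → (n ∈ A ↔ Syr n ∈ A)

/-- There is a `v` in `A` which is a term of the orbit of `-m` for all but at most `ε H` of the odd
integers `m` in the interval `(n, n + H]`. -/
def Solid (A : Set ℤ) (ε : ℝ) (n H : ℕ) : Prop :=
  ∃ v ∈ A, ({h : ℕ | 1 ≤ h ∧ h ≤ H ∧ Odd (n + h) ∧
    ∀ j : ℕ, Syr^[j] (-((n + h : ℕ) : ℤ)) ≠ v}.ncard : ℝ) ≤ ε * H

/-- The number of the odd integers of `B` in the interval `(n, n + H]`. -/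
noncomputable def count (B : Set ℕ) (n H : ℕ) : ℕ :=
  {h : ℕ | 1 ≤ h ∧ h ≤ H ∧ Odd (n + h) ∧ n + h ∈ B}.ncard

/-- The orbit of `n` contains `z`. -/
def Reaches (n z : ℤ) : Prop := ∃ k : ℕ, Syr^[k] n = z

/-- The orbit of `n` enters one of the three known cycles. -/
def EntersKnown (n : ℤ) : Prop := Reaches n (-1) ∨ Reaches n (-5) ∨ Reaches n (-17)

/-! ### proofs -/

open Pool.Agent.H499R2.ND
open Pool.Agent.H499R2.CO (Tz)

/-- The odd part. -/
def oddPart (n : ℤ) : ℤ := n / 2 ^ padicValInt 2 n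

theorem oddPart_eq {n m : ℤ} {v : ℕ} (h : n = 2 ^ v * m) (hm : m % 2 = 1) : oddPart n = m := by
  have hM0 : m ≠ 0 := by rintro rfl; norm_num at hm
  have h1 : padicValInt 2 n = v := by
    rw [h, padicValInt.mul (by positivity) hM0]
    have h2 : padicValInt 2 m = 0 := padicValInt.eq_zero_of_not_dvd (by
      intro h3
      have : (2 : ℤ) ∣ m := by exact_mod_cast h3
      omega)
    have h3 : padicValInt 2 ((2 : ℤ) ^ v) = v := by
      have e : ((2 : ℤ) ^ v) = ((2 ^ v : ℕ) : ℤ) := by push_cast; ring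
      rw [e, padicValInt.of_nat, padicValNat.prime_pow]
    rw [h2, h3, add_zero]
  unfold oddPart
  rw [h1, h, Int.mul_ediv_cancel_left _ (by positivity)]

theorem exists_odd {n : ℤ} (hn : n ≠ 0) : ∃ (v : ℕ) (m : ℤ), n = 2 ^ v * m ∧ m % 2 = 1 := by
  obtain ⟨v, m, hm, h⟩ := Nat.exists_eq_two_pow_mul_odd (n := n.natAbs) (by omega)
  have hm2 : m % 2 = 1 := Nat.odd_iff.1 hm
  rcases le_total 0 n with h0 | h0
  · refine ⟨v, m, ?_, by omega⟩
    have h1 : n = ((n.natAbs : ℕ) : ℤ) := by omega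
    rw [h1, h]; push_cast; ring
  · refine ⟨v, -m, ?_, by omega⟩
    have h1 : n = -((n.natAbs : ℕ) : ℤ) := by omega
    rw [h1, h]; push_cast; ring

theorem oddPart_odd {n : ℤ} (hn : n % 2 = 1) : oddPart n = n := oddPart_eq (v := 0) (by ring) hn

theorem oddPart_half {n : ℤ} (h0 : n ≠ 0) (hn : n % 2 = 0) : oddPart (n / 2) = oddPart n := by
  obtain ⟨v, m, h1, h2⟩ := exists_odd (n := n / 2) (by omega)
  rw [oddPart_eq h1 h2, oddPart_eq (n := n) (v := v + 1) (m := m) (by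
    have h3 : n = 2 * (n / 2) := by omega
    rw [pow_succ, mul_comm ((2 : ℤ) ^ v) 2, mul_assoc, ← h1]; exact h3) h2]

theorem syr_oddPart (n : ℤ) : Syr n = oddPart (3 * n + 1) := rfl

/-- the negative integers whose odd part is in `A` -/
def ext (A : Set ℤ) : Set ℤ := {x | x < 0 ∧ oddPart x ∈ A}

theorem ext_inv {A : Set ℤ} (hA : Invariant A) : ∀ x, x ∈ ext A ↔ Pool.Agent.H499R2.CO.Tz 1 x ∈ ext A := by
  intro x
  unfold ext Pool.Agent.H499R2.CO.Tz
  simp only [Set.mem_ofPred_eq]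
  by_cases hx : x < 0
  · by_cases h2 : x % 2 = 0
    · rw [if_pos h2, oddPart_half (by omega) h2]
      constructor
      · rintro ⟨_, h⟩; exact ⟨by omega, h⟩
      · rintro ⟨_, h⟩; exact ⟨hx, h⟩
    · rw [if_neg h2, oddPart_half (by omega) (by omega), oddPart_odd (n := x) (by omega), ← syr_oddPart]
      have h := hA x hx (Int.odd_iff.2 (by omega))
      rw [h]
      constructor
      · rintro ⟨_, h⟩; exact ⟨by omega, h⟩
      · rintro ⟨_, h⟩; exact ⟨hx, h⟩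
  · constructor
    · rintro ⟨h, _⟩; exact absurd h hx
    · rintro ⟨h, _⟩
      exfalso
      split_ifs at h <;> omega

/-- basins of periodic points are invariant -/
theorem basin_inv {z : ℤ} (hz : ∃ k, Syr^[k + 1] z = z) : Invariant {n | Reaches n z} := by
  intro n _ _
  simp only [Set.mem_ofPred_eq]
  constructor
  · rintro ⟨k, hk⟩
    cases k with
    | zero =>
      obtain ⟨j, hj⟩ := hz
      have : n = z := hk
      refine ⟨j, ?_⟩
      rw [this, ← Function.iterate_succ_apply]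
      exact hj
    | succ k => exact ⟨k, by rw [← Function.iterate_succ_apply]; exact hk⟩
  · rintro ⟨k, hk⟩
    exact ⟨k + 1, by rw [Function.iterate_succ_apply]; exact hk⟩

theorem s1 : Syr (-1) = -1 := oddPart_eq (v := 1) (by norm_num) (by norm_num)
theorem s5 : Syr (-5) = -7 := oddPart_eq (v := 1) (by norm_num) (by norm_num)
theorem s7 : Syr (-7) = -5 := oddPart_eq (v := 2) (by norm_num) (by norm_num)
theorem s17 : Syr (-17) = -25 := oddPart_eq (v := 1) (by norm_num) (by norm_num)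
theorem s25 : Syr (-25) = -37 := oddPart_eq (v := 1) (by norm_num) (by norm_num)
theorem s37 : Syr (-37) = -55 := oddPart_eq (v := 1) (by norm_num) (by norm_num)
theorem s55 : Syr (-55) = -41 := oddPart_eq (v := 2) (by norm_num) (by norm_num)
theorem s41 : Syr (-41) = -61 := oddPart_eq (v := 1) (by norm_num) (by norm_num)
theorem s61 : Syr (-61) = -91 := oddPart_eq (v := 1) (by norm_num) (by norm_num)
theorem s91 : Syr (-91) = -17 := oddPart_eq (v := 4) (by norm_num) (by norm_num)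

theorem per {z : ℤ} (hz : z = -1 ∨ z = -5 ∨ z = -17) : ∃ k, Syr^[k + 1] z = z := by
  rcases hz with rfl | rfl | rfl
  · exact ⟨0, by simp [s1]⟩
  · exact ⟨1, by simp [Function.iterate_succ_apply, s5, s7]⟩
  · exact ⟨6, by simp [Function.iterate_succ_apply, s17, s25, s37, s55, s41, s61, s91]⟩


theorem syr_neg_odd {n : ℤ} (h0 : n < 0) (hn : n % 2 = 1) : Syr n < 0 ∧ Syr n % 2 = 1 := by
  obtain ⟨v, m, h1, h2⟩ := exists_odd (n := 3 * n + 1) (by omega)
  rw [syr_oddPart, oddPart_eq h1 h2]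
  refine ⟨?_, h2⟩
  have h3 : (0 : ℤ) < 2 ^ v := by positivity
  by_contra hc
  push Not at hc
  have : 0 ≤ (2 : ℤ) ^ v * m := mul_nonneg h3.le hc
  omega

/-- the accelerated map divides out the powers of two -/
theorem tz_pow (v : ℕ) (m : ℤ) : (Tz 1)^[v] (2 ^ v * m) = m := by
  induction v with
  | zero => simp
  | succ v ih =>
    rw [Function.iterate_succ_apply]
    have : Tz 1 (2 ^ (v + 1) * m) = 2 ^ v * m := by
      unfold Tz
      have e : (2 : ℤ) ^ (v + 1) * m = 2 * (2 ^ v * m) := by ring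
      rw [e, if_pos (by omega)]
      omega
    rw [this, ih]

/-- odd terms of the accelerated trajectory are terms of the Syracuse orbit -/
theorem syr_of_tz (t : ℕ) : ∀ x y : ℤ, x % 2 = 1 → y % 2 = 1 → (Tz 1)^[t] x = y → ∃ j, Syr^[j] x = y := by
  induction t using Nat.strong_induction_on with
  | _ t ih =>
    intro x y hx hy h
    cases t with
    | zero => exact ⟨0, h⟩
    | succ t =>
      obtain ⟨v, m, h1, h2⟩ := exists_odd (n := 3 * x + 1) (by omega)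
      have hsyr : Syr x = m := by rw [syr_oddPart]; exact oddPart_eq h1 h2
      have hv : 1 ≤ v := by
        rcases Nat.eq_zero_or_pos v with rfl | hv
        · rw [pow_zero, one_mul] at h1; omega
        · exact hv
      obtain ⟨w, rfl⟩ : ∃ w, v = w + 1 := ⟨v - 1, by omega⟩
      have hT : Tz 1 x = 2 ^ w * m := by
        unfold Tz
        rw [if_neg (by omega)]
        have e : (2 : ℤ) ^ (w + 1) * m = 2 * (2 ^ w * m) := by ring
        rw [e] at h1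
        omega
      rw [Function.iterate_succ_apply, hT] at h
      by_cases hwt : w ≤ t
      · have e : t = (t - w) + w := by omega
        rw [e, Function.iterate_add_apply, tz_pow] at h
        obtain ⟨j, hj⟩ := ih (t - w) (by omega) m y h2 hy h
        exact ⟨j + 1, by rw [Function.iterate_succ_apply, hsyr]; exact hj⟩
      · exfalso
        have e : (2 : ℤ) ^ w * m = 2 ^ t * (2 ^ (w - t) * m) := by
          rw [← mul_assoc, ← pow_add]
          congr 2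
          omega
        rw [e, tz_pow] at h
        obtain ⟨u, hu⟩ : ∃ u, w - t = u + 1 := ⟨w - t - 1, by omega⟩
        rw [hu] at h
        have e2 : (2 : ℤ) ^ (u + 1) * m = 2 * (2 ^ u * m) := by ring
        rw [e2] at h
        omega

/-- SOLID INTERVALS -/
theorem main (A : Set ℤ) (hA : Invariant A) (hne : ∃ n ∈ A, n < 0 ∧ Odd n) (θ ε : ℝ) (hθ : 0 < θ)
    (hθ1 : θ < 1) (hε : 0 < ε) : ∃ c : ℝ, 0 < c ∧ ∃ N₀ : ℕ, ∀ N : ℕ, N₀ ≤ N → ∀ H : ℕ, 1 ≤ H →
      (H : ℝ) ≤ (N : ℝ) ^ θ → c * N ≤ ({n : ℕ | N ≤ 4 * n ∧ n ≤ N ∧ Solid A ε n H}.ncard : ℝ) := by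
  obtain ⟨n, hnA, hn0, hodd⟩ := hne
  have hn2 : n % 2 = 1 := Int.odd_iff.1 hodd
  have hmem : n ∈ ext A := ⟨hn0, by rw [oddPart_odd hn2]; exact hnA⟩
  have hS : Inv 1 (ext A) := ext_inv hA
  obtain ⟨δ, _, _, hδ⟩ := dens_side odd_one isCoprime_one_left (Or.inr rfl : (-1 : ℤ) = 1 ∨ _) hS
  have hδ0 : 0 < δ := one_pos (Or.inr rfl) hS hmem (by omega) hδ
  obtain ⟨c, hc, h⟩ := Pool.Agent.K1H87.PR.solid_windows (Or.inr rfl : (-1 : ℤ) = 1 ∨ _) hθ hθ1 hθ1 hε hδ0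
  obtain ⟨N₀, hN₀⟩ := eventually_atTop.1 h
  refine ⟨c, hc, N₀, fun N hN H hH hHN => ?_⟩
  obtain ⟨t, _, h1⟩ := hN₀ N hN
  refine (h1 (ext A) hS δ hδ le_rfl H hH hHN).trans ?_
  have hfin : {n : ℕ | N ≤ 4 * n ∧ n ≤ N ∧ Solid A ε n H}.Finite :=
    (Set.finite_Iic N).subset (fun n hn => hn.2.1)
  have hsub : {n : ℕ | N ≤ 4 * n ∧ n ≤ N ∧ ∃ v ∈ ext A,
      ({h : ℕ | 1 ≤ h ∧ h ≤ H ∧ (Tz 1)^[t] (-1 * ((n : ℤ) + h)) ≠ v}.ncard : ℝ) ≤ ε * H} ⊆
      {n : ℕ | N ≤ 4 * n ∧ n ≤ N ∧ Solid A ε n H} := by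
    rintro n ⟨h3, h4, w, ⟨hw0, hwA⟩, h5⟩
    refine ⟨h3, h4, oddPart w, hwA, ?_⟩
    refine le_trans ?_ h5
    obtain ⟨u, m, hu1, hu2⟩ := exists_odd (n := w) (by omega)
    have how : oddPart w = m := oddPart_eq hu1 hu2
    have hsub2 : {h : ℕ | 1 ≤ h ∧ h ≤ H ∧ Odd (n + h) ∧
        ∀ j : ℕ, Syr^[j] (-((n + h : ℕ) : ℤ)) ≠ oddPart w} ⊆
        {h : ℕ | 1 ≤ h ∧ h ≤ H ∧ (Tz 1)^[t] (-1 * ((n : ℤ) + h)) ≠ w} := by
      rintro h ⟨g1, g2, g3, g4⟩
      refine ⟨g1, g2, fun hc => ?_⟩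
      have g5 : (n + h) % 2 = 1 := Nat.odd_iff.1 g3
      have e1 : (-1 : ℤ) * ((n : ℤ) + h) = -((n + h : ℕ) : ℤ) := by push_cast; ring
      rw [e1] at hc
      have h6 : (Tz 1)^[u + t] (-((n + h : ℕ) : ℤ)) = m := by
        rw [Function.iterate_add_apply, hc, hu1, tz_pow]
      obtain ⟨j, hj⟩ := syr_of_tz (u + t) _ _ (by omega) hu2 h6
      exact g4 j (by rw [hj, how])
    have hfin2 : {h : ℕ | 1 ≤ h ∧ h ≤ H ∧ (Tz 1)^[t] (-1 * ((n : ℤ) + h)) ≠ w}.Finite :=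
      (Set.finite_Iic H).subset (fun n hn => hn.2.1)
    exact_mod_cast Set.ncard_le_ncard hsub2 hfin2
  exact_mod_cast Set.ncard_le_ncard hsub hfin

theorem known_inv : Invariant {n | ¬ EntersKnown n} := by
  intro m hm1 hm2
  have e1 := basin_inv (per (z := -1) (by norm_num)) m hm1 hm2
  have e2 := basin_inv (per (z := -5) (by norm_num)) m hm1 hm2
  have e3 := basin_inv (per (z := -17) (by norm_num)) m hm1 hm2
  simp only [Set.mem_ofPred_eq] at e1 e2 e3 ⊢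
  unfold EntersKnown
  rw [e1, e2, e3]

theorem inv_iter {A : Set ℤ} (hA : Invariant A) (j : ℕ) : ∀ n : ℤ, n < 0 → n % 2 = 1 →
    (n ∈ A ↔ Syr^[j] n ∈ A) := by
  induction j with
  | zero => intro n _ _; rfl
  | succ j ih =>
    intro n h1 h2
    obtain ⟨g1, g2⟩ := syr_neg_odd h1 h2
    rw [Function.iterate_succ_apply, ← ih _ g1 g2]
    exact hA n h1 (Int.odd_iff.2 h2)

/-- SUFFICIENT SETS -/
theorem sufficient (θ κ : ℝ) (B : Set ℕ) (hθ : 0 < θ) (hθ1 : θ < 1) (hκ : 0 < κ)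
    (hB : ∀ η : ℝ, 0 < η → ∃ᶠ N : ℕ in atTop, ∃ H : ℕ, 1 ≤ H ∧ (H : ℝ) ≤ (N : ℝ) ^ θ ∧
      ({n : ℕ | N ≤ 4 * n ∧ n ≤ N ∧ (count B n H : ℝ) < κ * H}.ncard : ℝ) ≤ η * N)
    (hR : ∀ m ∈ B, Odd m → EntersKnown (-(m : ℤ))) : ∀ n : ℤ, n < 0 → Odd n → EntersKnown n := by
  by_contra hcon
  push Not at hcon
  obtain ⟨x, hx1, hx2, hx⟩ := hcon
  obtain ⟨c, hc, N₀, h⟩ := main {n | ¬ EntersKnown n} known_inv ⟨x, hx, hx1, hx2⟩ θ (κ / 2) hθ hθ1 (by positivity)
  obtain ⟨N, ⟨H, hH, hHN, hcard⟩, hN⟩ := ((hB (c / 2) (by positivity)).and_eventually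
    (eventually_ge_atTop (max N₀ 1))).exists
  have h2 := h N ((le_max_left _ _).trans hN) H hH hHN
  have hN1 : (1 : ℝ) ≤ N := by exact_mod_cast (le_max_right _ _).trans hN
  have hfin : {n : ℕ | N ≤ 4 * n ∧ n ≤ N ∧ (count B n H : ℝ) < κ * H}.Finite :=
    (Set.finite_Iic N).subset (fun n hn => hn.2.1)
  have hlt : ({n : ℕ | N ≤ 4 * n ∧ n ≤ N ∧ (count B n H : ℝ) < κ * H}.ncard : ℝ) <
      ({n : ℕ | N ≤ 4 * n ∧ n ≤ N ∧ Solid {n | ¬ EntersKnown n} (κ / 2) n H}.ncard : ℝ) := by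
    have : 0 < c * N := by positivity
    linarith
  have hnsub : ¬ {n : ℕ | N ≤ 4 * n ∧ n ≤ N ∧ Solid {n | ¬ EntersKnown n} (κ / 2) n H} ⊆
      {n : ℕ | N ≤ 4 * n ∧ n ≤ N ∧ (count B n H : ℝ) < κ * H} := by
    intro hsub
    have := Set.ncard_le_ncard hsub hfin
    have h3 : ({n : ℕ | N ≤ 4 * n ∧ n ≤ N ∧ Solid {n | ¬ EntersKnown n} (κ / 2) n H}.ncard : ℝ) ≤
      ({n : ℕ | N ≤ 4 * n ∧ n ≤ N ∧ (count B n H : ℝ) < κ * H}.ncard : ℝ) := by exact_mod_cast this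
    linarith
  rw [Set.not_subset] at hnsub
  obtain ⟨n, ⟨g1, g2, v, hv, hsolid⟩, hn⟩ := hnsub
  have hcnt : κ * H ≤ count B n H := by
    by_contra hc2
    push Not at hc2
    exact hn ⟨g1, g2, hc2⟩
  have hHR : (1 : ℝ) ≤ H := by exact_mod_cast hH
  have hlt2 : ({h : ℕ | 1 ≤ h ∧ h ≤ H ∧ Odd (n + h) ∧
      ∀ j : ℕ, Syr^[j] (-((n + h : ℕ) : ℤ)) ≠ v}.ncard : ℝ) < count B n H := by
    have : 0 < κ * H := by positivity
    linarith
  have hfin2 : {h : ℕ | 1 ≤ h ∧ h ≤ H ∧ Odd (n + h) ∧ ∀ j : ℕ, Syr^[j] (-((n + h : ℕ) : ℤ)) ≠ v}.Finite :=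
    (Set.finite_Iic H).subset (fun n hn => hn.2.1)
  have hns : ¬ {h : ℕ | 1 ≤ h ∧ h ≤ H ∧ Odd (n + h) ∧ n + h ∈ B} ⊆ {h : ℕ | 1 ≤ h ∧ h ≤ H ∧ Odd (n + h) ∧
      ∀ j : ℕ, Syr^[j] (-((n + h : ℕ) : ℤ)) ≠ v} := by
    intro hsub
    have := Set.ncard_le_ncard hsub hfin2
    have h3 : (count B n H : ℝ) ≤ ({h : ℕ | 1 ≤ h ∧ h ≤ H ∧ Odd (n + h) ∧
        ∀ j : ℕ, Syr^[j] (-((n + h : ℕ) : ℤ)) ≠ v}.ncard : ℝ) := by
      unfold count; exact_mod_cast this
    linarith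
  rw [Set.not_subset] at hns
  obtain ⟨h', ⟨k1, k2, k3, k4⟩, hk⟩ := hns
  obtain ⟨j, hj⟩ : ∃ j, Syr^[j] (-((n + h' : ℕ) : ℤ)) = v := by
    by_contra hc2
    push Not at hc2
    exact hk ⟨k1, k2, k3, hc2⟩
  have k5 : (n + h') % 2 = 1 := Nat.odd_iff.1 k3
  have hnot : -((n + h' : ℕ) : ℤ) ∈ {n | ¬ EntersKnown n} := by
    rw [inv_iter known_inv j _ (by omega) (by omega), hj]
    exact hv
  exact hnot (hR _ k4 k3)

theorem pow_gap (d k : ℕ) : (k + 1) ^ d ≤ k ^ d + d * (k + 1) ^ (d - 1) := by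
  induction d with
  | zero => simp
  | succ d ih =>
    rcases Nat.eq_zero_or_pos d with rfl | hd
    · simp
    · have e1 : (k + 1) ^ (d + 1) = (k + 1) ^ d * k + (k + 1) ^ d := by ring
      have e2 : (k + 1) ^ d * k ≤ (k ^ d + d * (k + 1) ^ (d - 1)) * k := Nat.mul_le_mul_right _ ih
      have e3 : (k + 1) ^ (d - 1) * k ≤ (k + 1) ^ d := by
        calc (k + 1) ^ (d - 1) * k ≤ (k + 1) ^ (d - 1) * (k + 1) := Nat.mul_le_mul_left _ (by omega)
          _ = (k + 1) ^ d := by rw [← pow_succ]; congr 1; omega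
      rw [e1, Nat.add_sub_cancel]
      calc (k + 1) ^ d * k + (k + 1) ^ d ≤ (k ^ d + d * (k + 1) ^ (d - 1)) * k + (k + 1) ^ d := by omega
        _ = k ^ (d + 1) + d * ((k + 1) ^ (d - 1) * k) + (k + 1) ^ d := by ring
        _ ≤ k ^ (d + 1) + d * (k + 1) ^ d + (k + 1) ^ d := by
            have := Nat.mul_le_mul_left d e3
            omega
        _ = _ := by ring

theorem pow_gap2 (d k : ℕ) (hd : 1 ≤ d) : k ^ d + k ^ (d - 1) ≤ (k + 1) ^ d := by
  obtain ⟨e, rfl⟩ : ∃ e, d = e + 1 := ⟨d - 1, by omega⟩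
  rw [Nat.add_sub_cancel]
  calc k ^ (e + 1) + k ^ e = k ^ e * (k + 1) := by ring
    _ ≤ (k + 1) ^ e * (k + 1) := Nat.mul_le_mul_right _ (Nat.pow_le_pow_left (by omega) e)
    _ = _ := by ring

/-- an interval of length `2 d (4 M) ^ (d - 1)` contains a complete cell -/
theorem cell (d M n : ℕ) (hd : 2 ≤ d) (hM : 1 ≤ M) (h1 : M ^ d ≤ n) (h2 : n ≤ 4 * M ^ d) :
    ∃ k, M ≤ k ∧ n < k ^ d ∧ (k + 1) ^ d ≤ n + 2 * d * (4 * M) ^ (d - 1) := by
  classical
  have hex : ∃ k, n < k ^ d := ⟨n + 1, by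
    calc n < n + 1 := by omega
      _ = (n + 1) ^ 1 := by ring
      _ ≤ (n + 1) ^ d := Nat.pow_le_pow_right (by omega) (by omega)⟩
  obtain ⟨k, hk⟩ : ∃ k, k = Nat.find hex := ⟨_, rfl⟩
  have hk1 : n < k ^ d := by rw [hk]; exact Nat.find_spec hex
  have hk0 : 1 ≤ k := by
    rcases Nat.eq_zero_or_pos k with h | h
    · rw [h, zero_pow (by omega)] at hk1; omega
    · exact h
  have hk2 : (k - 1) ^ d ≤ n := by
    have := Nat.find_min hex (m := k - 1) (by rw [← hk]; omega)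
    omega
  have hkM : M ≤ k := by
    by_contra hc
    push Not at hc
    have := Nat.pow_le_pow_left hc.le d
    omega
  have hk3 : k - 1 ≤ 2 * M := by
    by_contra hc
    push Not at hc
    have h3 : (2 * M) ^ d < (k - 1) ^ d := Nat.pow_lt_pow_left hc (by omega)
    have h4 : 4 * M ^ d ≤ (2 * M) ^ d := by
      rw [mul_pow]
      apply Nat.mul_le_mul_right
      calc 4 = 2 ^ 2 := by norm_num
        _ ≤ 2 ^ d := Nat.pow_le_pow_right (by norm_num) hd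
    omega
  refine ⟨k, hkM, hk1, ?_⟩
  have g1 := pow_gap d k
  have g2 := pow_gap d (k - 1)
  have e : k - 1 + 1 = k := by omega
  rw [e] at g2
  have g3 : k ^ (d - 1) ≤ (4 * M) ^ (d - 1) := Nat.pow_le_pow_left (by omega) _
  have g4 : (k + 1) ^ (d - 1) ≤ (4 * M) ^ (d - 1) := Nat.pow_le_pow_left (by omega) _
  have g5 := Nat.mul_le_mul_left d g3
  have g6 := Nat.mul_le_mul_left d g4
  have e2 : 2 * d * (4 * M) ^ (d - 1) = d * (4 * M) ^ (d - 1) + d * (4 * M) ^ (d - 1) := by ring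
  omega

/-- NEIGHBOURHOODS OF THE POWERS -/
theorem powers (d : ℕ) (hd : 2 ≤ d) (ε : ℝ) (hε : 0 < ε)
    (h : ∀ k n : ℕ, 1 ≤ k → k ^ d ≤ n → (n : ℝ) ≤ k ^ d + ε * k ^ (d - 1) → Odd n → EntersKnown (-(n : ℤ))) :
    ∀ n : ℤ, n < 0 → Odd n → EntersKnown n := by
  classical
  obtain ⟨ε', hε'⟩ : ∃ ε' : ℝ, ε' = min ε 1 := ⟨_, rfl⟩
  have hε'0 : 0 < ε' := by rw [hε']; exact lt_min hε one_pos
  have hε'1 : ε' ≤ 1 := by rw [hε']; exact min_le_right _ _
  have hε'ε : ε' ≤ ε := by rw [hε']; exact min_le_left _ _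
  set R : ℕ := 2 * d * 4 ^ (d - 1) with hR
  have hR1 : 1 ≤ R := by
    rw [hR]
    have : 1 ≤ 4 ^ (d - 1) := Nat.one_le_pow _ _ (by norm_num)
    nlinarith
  have hR0 : (0 : ℝ) < R := by exact_mod_cast hR1
  have hdR : (2 : ℝ) ≤ d := by exact_mod_cast hd
  refine sufficient (1 - 1 / (2 * d)) (ε' / (8 * R))
    {n | ∃ k : ℕ, 1 ≤ k ∧ k ^ d ≤ n ∧ (n : ℝ) ≤ k ^ d + ε' * k ^ (d - 1)} ?_ ?_ (by positivity) ?_ ?_
  · have : 1 / (2 * (d : ℝ)) < 1 := by
      rw [div_lt_one (by positivity)]; linarith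
    linarith
  · have : 0 < 1 / (2 * (d : ℝ)) := by positivity
    linarith
  · intro η hη
    rw [frequently_atTop]
    intro N₀
    obtain ⟨m, hm⟩ := exists_nat_ge (8 / ε')
    obtain ⟨M, hM⟩ : ∃ M : ℕ, M = N₀ + R ^ 2 + m + 1 := ⟨_, rfl⟩
    have hM1 : 1 ≤ M := by omega
    have hMR : (1 : ℝ) ≤ M := by exact_mod_cast hM1
    have hMd : M ≤ M ^ d := Nat.le_self_pow (by omega) M
    refine ⟨4 * M ^ d, by omega, R * M ^ (d - 1), ?_, ?_, ?_⟩
    · exact Nat.mul_le_mul hR1 (Nat.one_le_pow _ _ hM1)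
    · -- the length
      have h1 : (M : ℝ) ^ (d - 1) * (M : ℝ) ^ (1 / 2 : ℝ) = ((M : ℝ) ^ d) ^ (1 - 1 / (2 * (d : ℝ))) := by
        rw [← Real.rpow_natCast, ← Real.rpow_natCast, ← Real.rpow_mul (by linarith),
          ← Real.rpow_add (by linarith)]
        congr 1
        rw [Nat.cast_sub (by omega)]
        field_simp
        push_cast
        ring
      have h2 : (R : ℝ) ≤ (M : ℝ) ^ (1 / 2 : ℝ) := by
        rw [← Real.sqrt_eq_rpow]
        apply Real.le_sqrt_of_sq_le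
        have : R ^ 2 ≤ M := by omega
        exact_mod_cast this
      have h3 : ((M : ℝ) ^ d) ^ (1 - 1 / (2 * (d : ℝ))) ≤ (4 * (M : ℝ) ^ d) ^ (1 - 1 / (2 * (d : ℝ))) := by
        apply Real.rpow_le_rpow (by positivity)
        · have : 0 ≤ (M : ℝ) ^ d := by positivity
          linarith
        · have : 1 / (2 * (d : ℝ)) < 1 := by
            rw [div_lt_one (by positivity)]; linarith
          linarith
      push_cast
      calc (R : ℝ) * (M : ℝ) ^ (d - 1) ≤ (M : ℝ) ^ (1 / 2 : ℝ) * (M : ℝ) ^ (d - 1) :=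
            mul_le_mul_of_nonneg_right h2 (by positivity)
        _ = (M : ℝ) ^ (d - 1) * (M : ℝ) ^ (1 / 2 : ℝ) := by ring
        _ ≤ _ := by rw [h1]; exact h3
    · -- no poor intervals
      have hempty : {n : ℕ | 4 * M ^ d ≤ 4 * n ∧ n ≤ 4 * M ^ d ∧
          (count {n | ∃ k : ℕ, 1 ≤ k ∧ k ^ d ≤ n ∧ (n : ℝ) ≤ k ^ d + ε' * k ^ (d - 1)} n (R * M ^ (d - 1)) : ℝ) <
            ε' / (8 * R) * ((R * M ^ (d - 1) : ℕ) : ℝ)} = ∅ := by
        rw [Set.eq_empty_iff_forall_notMem]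
        rintro n ⟨g1, g2, g3⟩
        obtain ⟨k, k1, k2, k3⟩ := cell d M n hd hM1 (by omega) g2
        have e1 : 2 * d * (4 * M) ^ (d - 1) = R * M ^ (d - 1) := by rw [hR, mul_pow]; ring
        rw [e1] at k3
        have k4 := pow_gap2 d k (by omega)
        obtain ⟨q, hq⟩ : ∃ q : ℕ, q = ⌊ε' * (k : ℝ) ^ (d - 1)⌋₊ := ⟨_, rfl⟩
        have hfl : (q : ℝ) ≤ ε' * (k : ℝ) ^ (d - 1) := by rw [hq]; exact Nat.floor_le (by positivity)
        have hfl2 : q ≤ k ^ (d - 1) := by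
          have : (q : ℝ) ≤ ((k ^ (d - 1) : ℕ) : ℝ) := by
            refine hfl.trans ?_
            push_cast
            exact mul_le_of_le_one_left (by positivity) hε'1
          exact_mod_cast this
        have h6 := Nat.lt_floor_add_one (ε' * (k : ℝ) ^ (d - 1))
        rw [← hq] at h6
        -- the odd elements of the cell
        obtain ⟨b, hb1, hb2, hb3⟩ : ∃ b, k ^ d ≤ b ∧ b ≤ k ^ d + 1 ∧ b % 2 = 1 := by
          rcases Nat.mod_two_eq_zero_or_one (k ^ d) with hp | hp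
          · exact ⟨k ^ d + 1, by omega, le_rfl, by omega⟩
          · exact ⟨k ^ d, le_rfl, by omega, hp⟩
        have hsub : ((Finset.range (q / 2)).image (fun i => b + 2 * i - n) : Set ℕ) ⊆
            {h : ℕ | 1 ≤ h ∧ h ≤ R * M ^ (d - 1) ∧ Odd (n + h) ∧ n + h ∈
              {n | ∃ k : ℕ, 1 ≤ k ∧ k ^ d ≤ n ∧ (n : ℝ) ≤ k ^ d + ε' * k ^ (d - 1)}} := by
          intro y hy
          rw [Finset.coe_image, Set.mem_image] at hy
          obtain ⟨i, hi, rfl⟩ := hy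
          rw [Finset.mem_coe, Finset.mem_range] at hi
          have hxn : n + (b + 2 * i - n) = b + 2 * i := by omega
          refine ⟨by omega, by omega, ?_, ?_⟩
          · rw [hxn, Nat.odd_iff]; omega
          · rw [hxn]
            refine ⟨k, by omega, by omega, ?_⟩
            have h5 : ((b + 2 * i : ℕ) : ℝ) ≤ ((k ^ d + q : ℕ) : ℝ) := by
              have : b + 2 * i ≤ k ^ d + q := by omega
              exact_mod_cast this
            push_cast at h5 ⊢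
            linarith
        have hfin : {h : ℕ | 1 ≤ h ∧ h ≤ R * M ^ (d - 1) ∧ Odd (n + h) ∧ n + h ∈
              {n | ∃ k : ℕ, 1 ≤ k ∧ k ^ d ≤ n ∧ (n : ℝ) ≤ k ^ d + ε' * k ^ (d - 1)}}.Finite :=
          (Set.finite_Iic (R * M ^ (d - 1))).subset (fun y hy => hy.2.1)
        have hc1 := Set.ncard_le_ncard hsub hfin
        rw [Set.ncard_coe_finset, Finset.card_image_of_injOn, Finset.card_range] at hc1
        · have hc2 : ((q / 2 : ℕ) : ℝ) ≤
              (count {n | ∃ k : ℕ, 1 ≤ k ∧ k ^ d ≤ n ∧ (n : ℝ) ≤ k ^ d + ε' * k ^ (d - 1)} n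
                (R * M ^ (d - 1)) : ℝ) := by
            unfold count; exact_mod_cast hc1
          have hc3 : (q : ℝ) ≤ 2 * ((q / 2 : ℕ) : ℝ) + 1 := by
            have : q ≤ 2 * (q / 2) + 1 := by omega
            exact_mod_cast this
          push_cast at g3
          have h7 : (M : ℝ) ^ (d - 1) ≤ (k : ℝ) ^ (d - 1) :=
            pow_le_pow_left₀ (by linarith) (by exact_mod_cast k1) _
          have h8 := mul_le_mul_of_nonneg_left h7 hε'0.le
          have h9 : ε' / (8 * R) * ((R : ℝ) * (M : ℝ) ^ (d - 1)) = ε' * (M : ℝ) ^ (d - 1) / 8 := by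
            field_simp
          have h10 : 8 ≤ ε' * (M : ℝ) ^ (d - 1) := by
            have h11 : (8 : ℝ) / ε' ≤ M := by
              have : (m : ℝ) ≤ M := by
                have : m ≤ M := by omega
                exact_mod_cast this
              linarith
            have h12 : (M : ℝ) ≤ (M : ℝ) ^ (d - 1) := le_self_pow₀ hMR (by omega)
            rw [div_le_iff₀ hε'0] at h11
            have := mul_le_mul_of_nonneg_left h12 hε'0.le
            linarith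
          rw [h9] at g3
          linarith
        · intro x hx y hy hxy
          simp only at hxy
          omega
      rw [hempty, Set.ncard_empty]
      push_cast
      positivity
  · rintro m ⟨k, hk1, hk2, hk3⟩ hodd
    apply h k m hk1 hk2 _ hodd
    have : ε' * (k : ℝ) ^ (d - 1) ≤ ε * (k : ℝ) ^ (d - 1) := mul_le_mul_of_nonneg_right hε'ε (by positivity)
    linarith

theorem result :
    (∀ A : Set ℤ, Invariant A → (∃ n ∈ A, n < 0 ∧ Odd n) → ∀ θ ε : ℝ, 0 < θ → θ < 1 → 0 < ε →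
      ∃ c : ℝ, 0 < c ∧ ∃ N₀ : ℕ, ∀ N : ℕ, N₀ ≤ N → ∀ H : ℕ, 1 ≤ H → (H : ℝ) ≤ (N : ℝ) ^ θ →
        c * N ≤ ({n : ℕ | N ≤ 4 * n ∧ n ≤ N ∧ Solid A ε n H}.ncard : ℝ)) ∧
    (∀ θ ε : ℝ, 0 < θ → θ < 1 → 0 < ε → ∃ c : ℝ, 0 < c ∧ ∃ N₀ : ℕ, ∀ N : ℕ, N₀ ≤ N → ∀ H : ℕ, 1 ≤ H →
      (H : ℝ) ≤ (N : ℝ) ^ θ → ∀ z : ℤ, z = -1 ∨ z = -5 ∨ z = -17 →
        c * N ≤ ({n : ℕ | N ≤ 4 * n ∧ n ≤ N ∧ Solid {m | Reaches m z} ε n H}.ncard : ℝ)) ∧
    (∀ (θ κ : ℝ) (B : Set ℕ), 0 < θ → θ < 1 → 0 < κ →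
      (∀ η : ℝ, 0 < η → ∃ᶠ N : ℕ in atTop, ∃ H : ℕ, 1 ≤ H ∧ (H : ℝ) ≤ (N : ℝ) ^ θ ∧
        ({n : ℕ | N ≤ 4 * n ∧ n ≤ N ∧ (count B n H : ℝ) < κ * H}.ncard : ℝ) ≤ η * N) →
      (∀ m ∈ B, Odd m → EntersKnown (-(m : ℤ))) → ∀ n : ℤ, n < 0 → Odd n → EntersKnown n) ∧
    (∀ (d : ℕ) (ε : ℝ), 2 ≤ d → 0 < ε →
      (∀ k n : ℕ, 1 ≤ k → k ^ d ≤ n → (n : ℝ) ≤ k ^ d + ε * k ^ (d - 1) → Odd n →
        EntersKnown (-(n : ℤ))) → ∀ n : ℤ, n < 0 → Odd n → EntersKnown n) := by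
  refine ⟨fun A h1 h2 θ ε h3 h4 h5 => main A h1 h2 θ ε h3 h4 h5, ?_,
    fun θ κ B h1 h2 h3 h4 h5 => sufficient θ κ B h1 h2 h3 h4 h5,
    fun d ε h1 h2 h3 => powers d h1 ε h2 h3⟩
  intro θ ε h3 h4 h5
  have key : ∀ z : ℤ, z = -1 ∨ z = -5 ∨ z = -17 → ∃ c : ℝ, 0 < c ∧ ∃ N₀ : ℕ, ∀ N : ℕ, N₀ ≤ N → ∀ H : ℕ, 1 ≤ H →
      (H : ℝ) ≤ (N : ℝ) ^ θ →
        c * N ≤ ({n : ℕ | N ≤ 4 * n ∧ n ≤ N ∧ Solid {m | Reaches m z} ε n H}.ncard : ℝ) := by
    intro z hz
    have hodd : z < 0 ∧ Odd z := by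
      rcases hz with rfl | rfl | rfl
      · exact ⟨by norm_num, by decide⟩
      · exact ⟨by norm_num, by decide⟩
      · exact ⟨by norm_num, by decide⟩
    exact main {n | Reaches n z} (basin_inv (per hz)) ⟨z, ⟨0, rfl⟩, hodd⟩ θ ε h3 h4 h5
  obtain ⟨c₁, hc₁, N₁, g₁⟩ := key (-1) (by norm_num)
  obtain ⟨c₂, hc₂, N₂, g₂⟩ := key (-5) (by norm_num)
  obtain ⟨c₃, hc₃, N₃, g₃⟩ := key (-17) (by norm_num)
  refine ⟨min c₁ (min c₂ c₃), lt_min hc₁ (lt_min hc₂ hc₃), max N₁ (max N₂ N₃), fun N hN H hH hHN z hz => ?_⟩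
  have hN0 : (0 : ℝ) ≤ N := Nat.cast_nonneg _
  rcases hz with rfl | rfl | rfl
  · exact (mul_le_mul_of_nonneg_right (min_le_left _ _) hN0).trans
      (g₁ N ((le_max_left _ _).trans hN) H hH hHN)
  · exact (mul_le_mul_of_nonneg_right ((min_le_right _ _).trans (min_le_left _ _)) hN0).trans
      (g₂ N (((le_max_left _ _).trans (le_max_right _ _)).trans hN) H hH hHN)
  · exact (mul_le_mul_of_nonneg_right ((min_le_right _ _).trans (min_le_right _ _)) hN0).trans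
      (g₃ N (((le_max_right _ _).trans (le_max_right _ _)).trans hN) H hH hHN)

end Pool.Agent.Results.MP_005f52_nt.SolidBasins
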