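import Mathlib
import Pool.Agent.K1H6.ColN4

set_option autoImplicit false

open Filter Topology Finset

namespace Pool.Agent.Results.MP_005f52_nt.SparseOrbits

/-- The Syracuse map. -/
def Syr (N : ℤ) : ℤ := (3 * N + 1) / 2 ^ padicValInt 2 (3 * N + 1)

/-- The `3x+1` map on all the integers, with one halving per step. -/
def T (x : ℤ) : ℤ := if x % 2 = 0 then x / 2 else (3 * x + 1) / 2

/-- The binary entropy of `log_3 2`, in bits: `0.94995...` -/
noncomputable def H : ℝ := Real.binEntropy (Real.log 2 / Real.log 3) / Real.log 2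

/-- The integers `N` with `-(u + X) ≤ N < -u`. -/
def Interval (u : ℕ) (X : ℝ) : Set ℤ := {N : ℤ | -(u + X) ≤ (N : ℝ) ∧ N < -(u : ℤ)}

/-- The set of the terms of the Syracuse orbit of `N`. -/
def Orbit (N : ℤ) : Set ℤ := {M | ∃ k : ℕ, Syr^[k] N = M}

/-- The set of the negative odd integers which lie on a periodic orbit. -/
def Cyclic : Set ℤ := {N | N < 0 ∧ N % 2 = 1 ∧ ∃ k : ℕ, 1 ≤ k ∧ Syr^[k] N = N}

open Pool.Agent.K1H6.ColN in
theorem count_le {κ B : ℝ} {Q : ℕ → Prop} (h : Pool.Agent.K1H6.Col.Sp κ B Q) {S : Set ℤ}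
    (hS : ∀ N ∈ S, N < 0 → Q N.natAbs) {X : ℝ} (hX : 1 ≤ X) (u : ℕ) :
    ((S ∩ Interval u X).ncard : ℝ) ≤ B * X ^ κ := by
  classical
  have hmem : ∀ N ∈ S ∩ Interval u X, N < 0 ∧ Q N.natAbs ∧ u < N.natAbs ∧ (N.natAbs : ℝ) ≤ u + X := by
    rintro N ⟨h1, h2, h3⟩
    have hneg : N < 0 := by omega
    refine ⟨hneg, hS N h1 hneg, by omega, ?_⟩
    have : (N.natAbs : ℝ) = -(N : ℝ) := by
      rw [Nat.cast_natAbs, Int.cast_abs, abs_of_neg (by exact_mod_cast hneg)]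
    rw [this]
    linarith
  have hinj : Set.InjOn Int.natAbs (S ∩ Interval u X) := by
    intro a ha b hb hab
    have h1 := (hmem a ha).1
    have h2 := (hmem b hb).1
    omega
  have hfin : (Int.natAbs '' (S ∩ Interval u X)).Finite := by
    apply (Set.finite_Iic ⌊(u : ℝ) + X⌋₊).subset
    rintro _ ⟨N, hN, rfl⟩
    rw [Set.mem_Iic]
    exact Nat.le_floor (hmem N hN).2.2.2
  rw [← hinj.ncard_image, Set.ncard_eq_toFinset_card _ hfin]
  apply h X hX u
  intro m hm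
  rw [Set.Finite.mem_toFinset] at hm
  obtain ⟨N, hN, rfl⟩ := hm
  exact (hmem N hN).2

theorem T_eq : T = Pool.Agent.K1H6.ColN.TZ := rfl

theorem image_eq (K u : ℕ) (X : ℝ) : T^[K] '' Interval u X =
    (fun m : ℕ => -(m : ℤ)) '' ((fun m => Pool.Agent.K1H6.ColN.T^[K] m) '' {m : ℕ | u < m ∧ (m : ℝ) ≤ u + X}) := by
  rw [T_eq]
  ext x
  constructor
  · rintro ⟨N, ⟨h1, h2⟩, rfl⟩
    obtain ⟨n, rfl⟩ : ∃ n : ℕ, N = -(n : ℤ) := ⟨N.natAbs, by omega⟩
    refine ⟨Pool.Agent.K1H6.ColN.T^[K] n, ⟨n, ⟨by omega, ?_⟩, rfl⟩, ?_⟩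
    · push_cast at h1
      linarith
    · exact (Pool.Agent.K1H6.ColN.TZ_iter_neg K n).symm
  · rintro ⟨_, ⟨n, ⟨h1, h2⟩, rfl⟩, rfl⟩
    refine ⟨-(n : ℤ), ⟨?_, by omega⟩, Pool.Agent.K1H6.ColN.TZ_iter_neg K n⟩
    push_cast
    linarith

/-- **Every orbit of negative odd integers is sparse, in every interval.**  There are `κ < H(log_3 2)`
(binary entropy in bits, `0.94995...`), `A` and `C` such that for all real `X ≥ 1` and all integers `u ≥ 0`:
1. for `K ≥ A (1 + log X)` the `K`-th iterate of `x ↦ x/2`, `(3x+1)/2` takes at most `C X ^ κ` values on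
   the integers of `[-u - X, -u)`;
2. the Syracuse orbit of any negative odd integer has at most `C X ^ κ` different terms in `[-u - X, -u)`;
3. at most `C X ^ κ` of the odd integers of `[-u - X, -u)` lie on periodic orbits (on all of them
   together). -/
theorem result : ∃ κ A C : ℝ, 0 < κ ∧ κ < H ∧ 0 < A ∧ 0 < C ∧ ∀ X : ℝ, 1 ≤ X → ∀ u : ℕ,
    (∀ K : ℕ, A * (1 + Real.log X) ≤ K → ((T^[K] '' Interval u X).ncard : ℝ) ≤ C * X ^ κ) ∧
    (∀ N : ℤ, N < 0 → N % 2 = 1 → ((Orbit N ∩ Interval u X).ncard : ℝ) ≤ C * X ^ κ) ∧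
    ((Cyclic ∩ Interval u X).ncard : ℝ) ≤ C * X ^ κ := by
  obtain ⟨A, C₀, hA, hC₀, hgen⟩ := Pool.Agent.K1H6.ColN.gen
  obtain ⟨B, hB, hB1, hB2⟩ := Pool.Agent.K1H6.ColN.sparse
  refine ⟨Pool.Agent.K1H6.ColN.kap, A, max C₀ B, Pool.Agent.K1H6.ColN.kap_pos,
    Pool.Agent.K1H6.ColN.kap_lt, hA, by positivity, fun X hX u => ⟨fun K hK => ?_, fun N hN hodd => ?_, ?_⟩⟩
  · rw [image_eq, Set.ncard_image_of_injective _ (fun a b h => by simpa using h)]
    refine (Pool.Agent.K1H6.ColN.image_card hgen hX u K hK).trans ?_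
    gcongr
    exact le_max_left _ _
  · refine (count_le (hB1 N.natAbs) (fun M hM hMneg => ?_) hX u).trans ?_
    · obtain ⟨k, hk⟩ := hM
      exact Pool.Agent.K1H6.ColN.orbit_T hN hodd (k := k) (by
        have : Pool.Agent.K1H6.ColN.Syr^[k] N = M := hk
        omega)
    · gcongr
      exact le_max_right _ _
  · refine (count_le hB2 (fun M hM _ => ?_) hX u).trans ?_
    · obtain ⟨h1, h2, k, hk, hper⟩ := hM
      exact Pool.Agent.K1H6.ColN.per_T h1 h2 hk hper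
    · gcongr
      exact le_max_right _ _

end Pool.Agent.Results.MP_005f52_nt.SparseOrbits
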